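import Mathlib
import Pool.Agent.N675.M.All
import Pool.Agent.N675.M.LamF
import Pool.Agent.N781.FV.Sep
import Pool.Agent.N781.FV.Gap
import Pool.Agent.N781.FV.Fin

/-! From an abstract inverse property to its forms for products with finitely many values and for
fixed functions (adapted from `N781.FV.Gap`, `Qual`, `Fin` of helper781). -/

set_option autoImplicit false
set_option maxHeartbeats 4000000

namespace Pool.Agent.N788.Sys

open Finset Topology Pool.Agent.N675 Pool.Agent.N675.M Pool.Agent.N781.A Pool.Agent.N781.FV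

/-- abstract inverse property -/
def Inv (W : ℕ → ℕ → (ℕ → ℂ) → Prop) : Prop :=
  ∃ Q : ℕ, ∀ η : ℝ, 0 < η → ∃ U M : ℝ, ∀ T' : ℕ, ∃ T K : ℕ, ∀ G, W T K G →
    ∃ q : ℕ, 1 ≤ q ∧ q ≤ Q ∧
      ∃ (χ : DirichletCharacter ℂ q) (v : ℝ), |v| ≤ U ∧ farP G χ v η T' ≤ M

/-- monotonicity -/
def Mono (W : ℕ → ℕ → (ℕ → ℂ) → Prop) : Prop :=
  ∀ T K T' K' G, T' ≤ T → K' ≤ K → W T K G → W T' K' G

lemma farP_unit {q : ℕ} (G : ℕ → ℂ) (χ : DirichletCharacter ℂ q) (v η : ℝ) (T : ℕ) :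
    far (fun _ : Fin 1 => G) χ v η T = farP G χ v η T := by
  rw [far_eq]
  simp

open Classical in
/-- the primes with `G(p) χ(p) ≠ 1` -/
noncomputable def far0P {q : ℕ} (G : ℕ → ℂ) (χ : DirichletCharacter ℂ q) (T : ℕ) : ℝ :=
  ∑ p ∈ (Finset.range (T + 1)).filter (fun p : ℕ => p.Prime ∧ G p * χ (p : ZMod q) ≠ 1),
    1 / (p : ℝ)

theorem inv_gap (W : ℕ → ℕ → (ℕ → ℂ) → Prop) (hm : Mono W) (hW : Inv W) (S : Set ℂ) (hS : Gap S) :
    ∃ Q : ℕ, ∀ η : ℝ, 0 < η → ∃ M : ℝ, ∀ T' : ℕ, ∃ T K : ℕ, ∀ G, W T K G →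
      (∀ p : ℕ, p.Prime → G p ∈ S) →
      ∃ q : ℕ, 1 ≤ q ∧ q ≤ Q ∧
      ∃ χ : DirichletCharacter ℂ q, far1 (fun _ : Fin 1 => G) χ η T' ≤ M := by
  classical
  obtain ⟨Q, hQ⟩ := hW
  refine ⟨Q, fun η hη => ?_⟩
  obtain ⟨a, ρ, hρ, hgap⟩ := hS (Nat.factorial Q) (Nat.one_le_iff_ne_zero.mpr (Nat.factorial_ne_zero Q))
  set η1 : ℝ := min (η / 2) (ρ / 3) with hη1
  have hη1pos : 0 < η1 := lt_min (by positivity) (by positivity)
  obtain ⟨U, M, hUM⟩ := hQ η1 hη1pos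
  refine ⟨M, fun T' => ?_⟩
  set v0 : ℝ := (η / 2) / Real.log (T' + 2) with hv0
  have hlog : 0 < Real.log ((T' : ℝ) + 2) := Real.log_pos (by
    have : (0 : ℝ) ≤ T' := Nat.cast_nonneg _
    linarith)
  have hv0pos : 0 < v0 := by positivity
  obtain ⟨T1, hT1⟩ := rot_pos v0 U a (ρ / 3) |M| hv0pos (by positivity) (abs_nonneg _)
  obtain ⟨T2, hT2⟩ := rot_pos v0 U (-a) (ρ / 3) |M| hv0pos (by positivity) (abs_nonneg _)
  obtain ⟨T, K, hTK⟩ := hUM (T' + T1 + T2)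
  refine ⟨T + (T' + T1 + T2), K, fun G hG hgS => ?_⟩
  obtain ⟨q, hq1, hqQ, χ, v, hv, hfar⟩ := hTK G (hm _ _ _ _ G (by omega) le_rfl hG)
  rw [← farP_unit] at hfar
  set g : Fin 1 → ℕ → ℂ := fun _ => G with hg
  have hGg : ∀ p, ∏ i, g i p = G p := fun p => by simp [hg]
  refine ⟨q, hq1, hqQ, χ, ?_⟩
  -- the primes with `p ^ (i v)` close to the point in the gap are in the far set
  have hsub : ∀ p : ℕ, p.Prime → p ≤ T' + T1 + T2 →
      ‖Complex.exp (Complex.I * ((v * Real.log p : ℝ) : ℂ))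
        - Complex.exp (Complex.I * ((a : ℝ) : ℂ))‖ ≤ ρ / 3 →
      η1 < ‖(∏ i, g i p) * χ (p : ZMod q)
            - Complex.exp (Complex.I * ((v * Real.log p : ℝ) : ℂ))‖ := by
    intro p hp hpT hclose
    have h1 := hgap (∏ i, g i p) (by rw [hGg]; exact hgS p hp) (χ (p : ZMod q)) (chi_root hq1 hqQ χ _)
    have h2 : ‖Complex.exp (Complex.I * ((a : ℝ) : ℂ)) - (∏ i, g i p) * χ (p : ZMod q)‖
        ≤ ‖Complex.exp (Complex.I * ((v * Real.log p : ℝ) : ℂ))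
          - Complex.exp (Complex.I * ((a : ℝ) : ℂ))‖
        + ‖(∏ i, g i p) * χ (p : ZMod q)
            - Complex.exp (Complex.I * ((v * Real.log p : ℝ) : ℂ))‖ := by
      rw [norm_sub_rev (Complex.exp (Complex.I * ((v * Real.log p : ℝ) : ℂ))),
        norm_sub_rev ((∏ i, g i p) * χ (p : ZMod q))]
      have := norm_add_le (Complex.exp (Complex.I * ((a : ℝ) : ℂ))
        - Complex.exp (Complex.I * ((v * Real.log p : ℝ) : ℂ)))
        (Complex.exp (Complex.I * ((v * Real.log p : ℝ) : ℂ)) - (∏ i, g i p) * χ (p : ZMod q))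
      rwa [sub_add_sub_cancel] at this
    have h3 : η1 ≤ ρ / 3 := min_le_right _ _
    linarith
  -- `v` is small
  have hvsmall : |v| < v0 := by
    by_contra hcon
    push Not at hcon
    rcases le_or_gt 0 v with hv' | hv'
    · rw [abs_of_nonneg hv'] at hcon hv
      have h1 := hT1 v hcon hv
      have h2 : ∑ p ∈ (Finset.range (T1 + 1)).filter (fun p : ℕ => p.Prime ∧
        ‖Complex.exp (Complex.I * ((v * Real.log p : ℝ) : ℂ))
          - Complex.exp (Complex.I * ((a : ℝ) : ℂ))‖ ≤ ρ / 3), 1 / (p : ℝ)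
          ≤ far g χ v η1 (T' + T1 + T2) := by
        unfold far
        refine Finset.sum_le_sum_of_subset_of_nonneg ?_ fun _ _ _ => by positivity
        intro p hp
        rw [Finset.mem_filter, Finset.mem_range] at hp ⊢
        exact ⟨by omega, hp.2.1, hsub p hp.2.1 (by omega) hp.2.2⟩
      have := le_abs_self M
      linarith
    · rw [abs_of_neg hv'] at hcon hv
      have h1 := hT2 (-v) hcon hv
      have h2 : ∑ p ∈ (Finset.range (T2 + 1)).filter (fun p : ℕ => p.Prime ∧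
        ‖Complex.exp (Complex.I * ((-v * Real.log p : ℝ) : ℂ))
          - Complex.exp (Complex.I * ((-a : ℝ) : ℂ))‖ ≤ ρ / 3), 1 / (p : ℝ)
          ≤ far g χ v η1 (T' + T1 + T2) := by
        unfold far
        refine Finset.sum_le_sum_of_subset_of_nonneg ?_ fun _ _ _ => by positivity
        intro p hp
        rw [Finset.mem_filter, Finset.mem_range] at hp ⊢
        refine ⟨by omega, hp.2.1, hsub p hp.2.1 (by omega) ?_⟩
        have h3 : ∀ x : ℝ, Complex.exp (Complex.I * ((-x : ℝ) : ℂ))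
            = (starRingEnd ℂ) (Complex.exp (Complex.I * ((x : ℝ) : ℂ))) := by
          intro x
          rw [← Complex.exp_conj, map_mul, Complex.conj_I, Complex.conj_ofReal]
          push_cast
          ring_nf
        have h4 := hp.2.2
        rw [neg_mul, h3, h3, ← map_sub, RCLike.norm_conj] at h4
        exact h4
      have := le_abs_self M
      linarith
  refine le_trans ?_ hfar
  unfold far far1
  refine Finset.sum_le_sum_of_subset_of_nonneg ?_ fun _ _ _ => by positivity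
  intro p hp
  rw [Finset.mem_filter, Finset.mem_range] at hp ⊢
  refine ⟨by omega, hp.2.1, ?_⟩
  by_contra hcon
  push Not at hcon
  have h1 : ‖(∏ i, g i p) * χ (p : ZMod q) - 1‖
      ≤ ‖(∏ i, g i p) * χ (p : ZMod q)
            - Complex.exp (Complex.I * ((v * Real.log p : ℝ) : ℂ))‖
        + ‖Complex.exp (Complex.I * ((v * Real.log p : ℝ) : ℂ)) - 1‖ := by
    have := norm_add_le ((∏ i, g i p) * χ (p : ZMod q)
            - Complex.exp (Complex.I * ((v * Real.log p : ℝ) : ℂ)))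
      (Complex.exp (Complex.I * ((v * Real.log p : ℝ) : ℂ)) - 1)
    rwa [sub_add_sub_cancel] at this
  have h2 := norm_exp_sub_one_le (v * Real.log p)
  have h3 : |v * Real.log p| ≤ η / 2 := by
    have hp1 : (1 : ℝ) ≤ p := by exact_mod_cast hp.2.1.one_le
    have hpl : 0 ≤ Real.log p := Real.log_nonneg hp1
    rw [abs_mul, abs_of_nonneg hpl]
    have hpT : Real.log p ≤ Real.log ((T' : ℝ) + 2) := by
      apply Real.log_le_log (by linarith)
      have : (p : ℝ) < (T' + 1 : ℕ) := by exact_mod_cast hp.1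
      push_cast at this
      linarith
    calc |v| * Real.log p ≤ v0 * Real.log ((T' : ℝ) + 2) :=
          mul_le_mul hvsmall.le hpT hpl hv0pos.le
      _ = η / 2 := by rw [hv0]; field_simp
  have h4 : η1 ≤ η / 2 := min_le_left _ _
  have h5 := hp.2.2
  linarith


theorem inv_fin (W : ℕ → ℕ → (ℕ → ℂ) → Prop) (hm : Mono W) (hW : Inv W) (S : Set ℂ)
    (hS : S.Finite) :
    ∃ (Q : ℕ) (M : ℝ), ∀ T' : ℕ, ∃ T K : ℕ, ∀ G, W T K G → (∀ p : ℕ, p.Prime → G p ∈ S) →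
      ∃ q : ℕ, 1 ≤ q ∧ q ≤ Q ∧ ∃ χ : DirichletCharacter ℂ q, far0P G χ T' ≤ M := by
  classical
  obtain ⟨Q, hQ⟩ := inv_gap W hm hW S (gap_finite S hS)
  have hN : 1 ≤ Nat.factorial Q := Nat.one_le_iff_ne_zero.mpr (Nat.factorial_ne_zero Q)
  obtain ⟨η, hη, hgap⟩ := gap_one ((fun p : ℂ × ℂ => p.1 * p.2) ''
    (S ×ˢ {z : ℂ | z = 0 ∨ z ^ (Nat.factorial Q) = 1})) ((hS.prod (roots_finite _ hN)).image _)
  obtain ⟨M, hM⟩ := hQ η hη
  refine ⟨Q, M, fun T' => ?_⟩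
  obtain ⟨T, K, hTK⟩ := hM T'
  refine ⟨T, K, fun G hG hgS => ?_⟩
  obtain ⟨q, hq1, hqQ, χ, hfar⟩ := hTK G hG hgS
  refine ⟨q, hq1, hqQ, χ, le_trans ?_ hfar⟩
  unfold far0P far1
  refine Finset.sum_le_sum_of_subset_of_nonneg ?_ fun _ _ _ => by positivity
  intro p hp
  rw [Finset.mem_filter, Finset.mem_range] at hp ⊢
  have h1 : ∏ _i : Fin 1, G p = G p := by simp
  refine ⟨hp.1, hp.2.1, ?_⟩
  rw [h1]
  exact hgap _ ⟨(G p, χ (p : ZMod q)), ⟨hgS p hp.2.1, chi_root hq1 hqQ χ _⟩, rfl⟩ hp.2.2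

lemma massP_le (G : ℕ → ℂ) {q : ℕ} (hq : 1 ≤ q) (χ : DirichletCharacter ℂ q)
    (v η : ℝ) (T : ℕ) : mass G χ⁻¹ v η T ≤ farP G χ v η T + q := by
  have h := mass_le (fun _ : Fin 1 => G) hq χ v η T
  rw [farP_unit] at h
  have h1 : (fun p => ∏ _i : Fin 1, G p) = G := by funext p; simp
  rw [h1] at h
  exact h

lemma dist2P_le (G : ℕ → ℂ) (hG : ∀ p, ‖G p‖ ≤ 1) {q : ℕ} (hq : 1 ≤ q)
    (χ : DirichletCharacter ℂ q) (T : ℕ) :
    dist2 G χ⁻¹ T ≤ 2 * far0P G χ T := by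
  classical
  have hq' : NeZero q := ⟨by omega⟩
  unfold dist2 far0P
  rw [Finset.mul_sum]
  set A' := (Finset.range (T + 1)).filter (fun p : ℕ => p.Prime ∧
    G p * χ (p : ZMod q) ≠ 1) with hA'
  have hstar : ∀ p : ℕ, (starRingEnd ℂ) (χ⁻¹ (p : ZMod q)) = χ (p : ZMod q) := by
    intro p
    by_cases hu : IsUnit (p : ZMod q)
    · have hc : p.Coprime q := (ZMod.isUnit_iff_coprime _ _).mp hu
      obtain ⟨h1, h2⟩ := inv_apply_norm hq χ hc
      have hne : χ (p : ZMod q) ≠ 0 := by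
        intro h0
        rw [h0, norm_zero] at h1
        exact zero_ne_one h1
      have h3 : χ⁻¹ (p : ZMod q) = (starRingEnd ℂ) (χ (p : ZMod q)) := by
        have h4 : (starRingEnd ℂ) (χ (p : ZMod q)) * χ (p : ZMod q) = 1 := by
          rw [mul_comm, Complex.mul_conj, Complex.normSq_eq_norm_sq, h1]
          norm_num
        exact mul_right_cancel₀ hne (h2.trans h4.symm)
      rw [h3, Complex.conj_conj]
    · rw [MulChar.map_nonunit _ hu, MulChar.map_nonunit _ hu, map_zero]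
  have hle : ∀ p ∈ (Finset.Icc 1 T).filter Nat.Prime,
      (1 - (G p * (starRingEnd ℂ) (χ⁻¹ (p : ZMod q))).re) / (p : ℝ)
      ≤ if p ∈ A' then 2 * (1 / (p : ℝ)) else 0 := by
    intro p hp
    rw [Finset.mem_filter, Finset.mem_Icc] at hp
    rw [hstar]
    by_cases h1 : G p * χ (p : ZMod q) = 1
    · rw [h1, if_neg]
      · simp
      · rw [hA', Finset.mem_filter]
        push Not
        intro _ _
        exact h1
    · rw [if_pos]
      · have h2 : ‖G p * χ (p : ZMod q)‖ ≤ 1 := by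
          rw [norm_mul]
          exact mul_le_one₀ (hG p) (norm_nonneg _) (DirichletCharacter.norm_le_one χ _)
        have h3 := (abs_le.mp (Complex.abs_re_le_norm (G p * χ (p : ZMod q)))).1
        rw [mul_one_div]
        exact div_le_div_of_nonneg_right (by linarith) (Nat.cast_nonneg _)
      · rw [hA', Finset.mem_filter, Finset.mem_range]
        exact ⟨by omega, hp.2, h1⟩
  refine (Finset.sum_le_sum hle).trans ?_
  rw [← Finset.sum_filter]
  refine Finset.sum_le_sum_of_subset_of_nonneg ?_ fun _ _ _ => by positivity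
  intro p hp
  exact (Finset.mem_filter.mp hp).2


/-- all in one -/
theorem inv_all (W : ℕ → ℕ → (ℕ → ℂ) → Prop) (hm : Mono W)
    (hn : ∀ T K G, W T K G → ∀ p, ‖G p‖ ≤ 1) (hW : Inv W) (S : Set ℂ) (hS : S.Finite) :
    ∃ Q : ℕ, ∀ η : ℝ, 0 < η → ∃ U M : ℝ, ∀ T' : ℕ, ∃ T K : ℕ, ∀ G, W T K G →
      ∃ (q : ℕ) (χ : DirichletCharacter ℂ q) (v : ℝ), 1 ≤ q ∧ q ≤ Q ∧ |v| ≤ U ∧
        mass G χ v η T' ≤ M ∧
        ((∀ p : ℕ, p.Prime → G p ∈ S) → v = 0 ∧ dist2 G χ T' ≤ M) := by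
  classical
  have hW' := hW
  obtain ⟨Q1, hQ1⟩ := hW'
  obtain ⟨Q2, M2, hQM⟩ := inv_fin W hm hW S hS
  refine ⟨Q1 + Q2, fun η hη => ?_⟩
  obtain ⟨U, M1, hUM⟩ := hQ1 η hη
  refine ⟨|U|, |M1| + Q1 + (2 * |M2| + Q2), fun T' => ?_⟩
  obtain ⟨T1, K1, hK1⟩ := hUM T'
  obtain ⟨T, K, hTK⟩ := hQM T'
  refine ⟨T1 + T, K1 + K, fun G hG => ?_⟩
  by_cases hfS : ∀ p : ℕ, p.Prime → G p ∈ S
  · obtain ⟨q, hq1, hqQ, χ, hfar⟩ := hTK G (hm _ _ _ _ G (by omega) (by omega) hG) hfS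
    have h2 : (q : ℝ) ≤ Q2 := by exact_mod_cast hqQ
    have h3 := le_abs_self M2
    have h4 := abs_nonneg M1
    have h5 := abs_nonneg M2
    have h7 : (0 : ℝ) ≤ Q1 := Nat.cast_nonneg _
    refine ⟨q, χ⁻¹, 0, hq1, by omega, by simp, ?_, fun _ => ⟨rfl, ?_⟩⟩
    · have h1 := massP_le G hq1 χ 0 η T'
      have h6 : farP G χ 0 η T' ≤ far0P G χ T' := by
        unfold farP far0P
        refine Finset.sum_le_sum_of_subset_of_nonneg ?_ fun _ _ _ => by positivity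
        intro p hp
        rw [Finset.mem_filter] at hp ⊢
        refine ⟨hp.1, hp.2.1, fun h7 => ?_⟩
        have h8 := hp.2.2
        rw [h7] at h8
        simp at h8
        linarith
      linarith
    · have h1 := dist2P_le G (hn _ _ _ hG) hq1 χ T'
      have h6 : (0 : ℝ) ≤ Q2 := Nat.cast_nonneg _
      linarith
  · obtain ⟨q, hq1, hqQ, χ, v, hv, hfar⟩ := hK1 G (hm _ _ _ _ G (by omega) (by omega) hG)
    have h1 := massP_le G hq1 χ v η T'
    have h2 : (q : ℝ) ≤ Q1 := by exact_mod_cast hqQ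
    have h3 := le_abs_self M1
    have h5 := abs_nonneg M2
    have h6 : (0 : ℝ) ≤ Q2 := Nat.cast_nonneg _
    exact ⟨q, χ⁻¹, v, hq1, by omega, hv.trans (le_abs_self U), by linarith,
      fun h => absurd h hfS⟩

lemma dist2_mono (G : ℕ → ℂ) (hG : ∀ p, ‖G p‖ ≤ 1) {q : ℕ} (χ : DirichletCharacter ℂ q)
    {T T' : ℕ} (h : T ≤ T') : dist2 G χ T ≤ dist2 G χ T' := by
  unfold dist2
  refine Finset.sum_le_sum_of_subset_of_nonneg ?_ fun p _ _ => ?_
  · intro p hp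
    rw [Finset.mem_filter, Finset.mem_Icc] at hp ⊢
    exact ⟨⟨hp.1.1, hp.1.2.trans h⟩, hp.2⟩
  · refine div_nonneg ?_ (Nat.cast_nonneg _)
    have h1 : ‖G p * (starRingEnd ℂ) (χ (p : ZMod q))‖ ≤ 1 := by
      rw [norm_mul, RCLike.norm_conj]
      exact mul_le_one₀ (hG p) (norm_nonneg _) (DirichletCharacter.norm_le_one χ _)
    have h2 := (abs_le.mp (Complex.abs_re_le_norm
      (G p * (starRingEnd ℂ) (χ (p : ZMod q))))).2
    linarith

/-- fixed functions -/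
theorem inv_qual (W : ℕ → ℕ → (ℕ → ℂ) → Prop) (hm : Mono W)
    (hn : ∀ T K G, W T K G → ∀ p, ‖G p‖ ≤ 1) (hW : Inv W) (G : ℕ → ℂ)
    (h : (∀ (q : ℕ) (χ : DirichletCharacter ℂ q) (v : ℝ), 1 ≤ q → ∃ η : ℝ, 0 < η ∧
        ∀ M : ℝ, ∃ T : ℕ, M < mass G χ v η T) ∨
      ((Set.range fun p : Nat.Primes => G p).Finite ∧
        ∀ (q : ℕ) (χ : DirichletCharacter ℂ q), 1 ≤ q →
          ∀ M : ℝ, ∃ T : ℕ, M < dist2 G χ T)) :
    ∃ T K : ℕ, ¬ W T K G := by
  by_contra hcon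
  push Not at hcon
  rcases h with h | ⟨hfin, h⟩
  · obtain ⟨η, hη, hdiv⟩ := uniform_tol (fun _ : Fin 1 => G) (by
      intro q hq χ v
      obtain ⟨η, hη, h1⟩ := h q χ⁻¹ v hq
      refine ⟨η, hη, fun M => ?_⟩
      obtain ⟨T, hT⟩ := h1 (M + q)
      refine ⟨T, ?_⟩
      have h2 := massP_le G hq χ v η T
      rw [farP_unit]
      linarith)
    obtain ⟨Q, hQ⟩ := hW
    obtain ⟨U, M, hUM⟩ := hQ η hη
    set g : Fin 1 → ℕ → ℂ := fun _ => G with hg
    obtain ⟨q, hq1, hqQ, χ, hP⟩ := pigeon Q (fun q χ T => ∃ v : ℝ, |v| ≤ U ∧ far g χ v η T ≤ M)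
      (fun q χ T T' hT ⟨v, hv, h⟩ => ⟨v, hv, (far_mono g χ v η hT).trans h⟩) (fun T' => by
        obtain ⟨T, K, hTK⟩ := hUM T'
        obtain ⟨q, hq1, hqQ, χ, v, hv, hfar⟩ := hTK G (hcon T K)
        exact ⟨q, hq1, hqQ, χ, v, hv, by rw [hg, farP_unit]; exact hfar⟩)
    have hne : (⋂ T : ℕ, {v : ℝ | |v| ≤ U ∧ far g χ v η T ≤ M}).Nonempty := by
      refine IsCompact.nonempty_iInter_of_sequence_nonempty_isCompact_isClosed
        (fun T : ℕ => {v : ℝ | |v| ≤ U ∧ far g χ v η T ≤ M}) ?_ ?_ ?_ ?_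
      · rintro T v ⟨hv1, hv2⟩
        exact ⟨hv1, (far_mono g χ v η (Nat.le_succ T)).trans hv2⟩
      · intro T
        exact hP T
      · refine IsCompact.of_isClosed_subset (isCompact_Icc (a := -U) (b := U)) ?_ ?_
        · have h1 : {v : ℝ | |v| ≤ U ∧ far g χ v η 0 ≤ M}
              = {v : ℝ | |v| ≤ U} ∩ {v : ℝ | far g χ v η 0 ≤ M} := rfl
          rw [h1]
          exact (isClosed_le continuous_abs continuous_const).inter (far_closed g χ η M 0)
        · rintro v ⟨hv, _⟩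
          exact abs_le.mp hv
      · intro T
        have h1 : {v : ℝ | |v| ≤ U ∧ far g χ v η T ≤ M}
              = {v : ℝ | |v| ≤ U} ∩ {v : ℝ | far g χ v η T ≤ M} := rfl
        rw [h1]
        exact (isClosed_le continuous_abs continuous_const).inter (far_closed g χ η M T)
    obtain ⟨v, hv⟩ := hne
    obtain ⟨T, hT⟩ := hdiv q hq1 χ v M
    have h1 := (Set.mem_iInter.mp hv T).2
    linarith
  · obtain ⟨Q, hQ⟩ := inv_all W hm hn hW _ hfin
    obtain ⟨U, M, hUM⟩ := hQ 1 one_pos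
    have hG1 : ∀ p, ‖G p‖ ≤ 1 := hn _ _ _ (hcon 0 0)
    obtain ⟨q, hq1, hqQ, χ, hP⟩ := pigeon Q (fun q χ T => dist2 G χ T ≤ M)
      (fun q χ T T' hT h => (dist2_mono G hG1 χ hT).trans h) (fun T' => by
        obtain ⟨T, K, hTK⟩ := hUM T'
        obtain ⟨q, χ, v, hq1, hqQ, _, _, hfin'⟩ := hTK G (hcon T K)
        exact ⟨q, hq1, hqQ, χ, (hfin' (fun p hp => ⟨⟨p, hp⟩, rfl⟩)).2⟩)
    obtain ⟨T, hT⟩ := h q χ hq1 M
    have h1 := hP T
    linarith

end Pool.Agent.N788.Sys
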