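import Mathlib
import Pool.Agent.N788.Sys.Abs

/-! Clusters and additive twists for general multiplicative functions. -/

set_option autoImplicit false
set_option maxHeartbeats 4000000

namespace Pool.Agent.N788.Sys

open Finset Topology Pool.Agent.N675 Pool.Agent.N675.M Pool.Agent.N781.A Pool.Agent.N781.FV

/-- large in mean, so large in mean square -/
lemma sq_of_sum {κ : Type} [Fintype κ] [DecidableEq κ] (B : κ → ℕ) (x : ℕ) (hB : ∀ j, 0 < B j)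
    (hx : 0 < x) (c S : (κ → ℤ) → ℂ) (hS : ∀ y, ‖S y‖ = x * ‖c y‖) (ε : ℝ) (hε : 0 < ε)
    (h : ε * (x * ∏ j, (B j : ℝ)) < ∑ y ∈ Box B, ‖S y‖) : ε ^ 2 ≤ ER B (fun y => ‖c y‖ ^ 2) := by
  by_contra hcon
  push Not at hcon
  have h1 := ER_first B c hε.le hcon.le
  have hx0 : (0 : ℝ) < x := by exact_mod_cast hx
  have hB0 : (0 : ℝ) < ∏ j, (B j : ℝ) :=
    Finset.prod_pos fun j _ => by exact_mod_cast hB j
  unfold ER at h1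
  rw [div_le_iff₀ hB0] at h1
  have h2 : ∑ y ∈ Box B, ‖S y‖ = x * ∑ y ∈ Box B, ‖c y‖ := by
    rw [Finset.mul_sum]
    exact Finset.sum_congr rfl fun y _ => hS y
  rw [h2] at h
  have h3 : (x : ℝ) * ∑ y ∈ Box B, ‖c y‖ ≤ x * (ε * ∏ j, (B j : ℝ)) :=
    mul_le_mul_of_nonneg_left h1 hx0.le
  linarith

variable {r k : ℕ}

/-- the situation for clusters -/
def WC (a : Fin k → ℤ) (L : Fin k → Fin r → ℤ) (lg : Fin r → Bool) (i₀ : Fin k) (R : ℕ) (ε : ℝ)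
    (_T K : ℕ) (G : ℕ → ℂ) : Prop :=
  ∃ (B : Fin r → ℕ) (x : ℕ) (f : Fin k → ℕ → ℂ), (∀ j, K ≤ B j) ∧ K ≤ x ∧ (∀ j, B j ≤ R * x) ∧
    (∀ j, lg j = true → x ≤ R * B j) ∧ (∀ i, IsMult (f i)) ∧
    ε ≤ ER B (fun y => ‖Pool.Agent.N675.M.cc a L (fun i m => f i m.natAbs) x y‖ ^ 2) ∧
    G = fun p => ∏ i ∈ cls a L lg i₀, f i p

lemma WC_mono (a : Fin k → ℤ) (L : Fin k → Fin r → ℤ) (lg : Fin r → Bool) (i₀ : Fin k) (R : ℕ)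
    (ε : ℝ) : Mono (WC a L lg i₀ R ε) := by
  rintro T K T' K' G _ hK ⟨B, x, f, h1, h2, h3⟩
  exact ⟨B, x, f, fun j => hK.trans (h1 j), hK.trans h2, h3⟩

lemma WC_norm (a : Fin k → ℤ) (L : Fin k → Fin r → ℤ) (lg : Fin r → Bool) (i₀ : Fin k) (R : ℕ)
    (ε : ℝ) : ∀ T K G, WC a L lg i₀ R ε T K G → ∀ p, ‖G p‖ ≤ 1 := by
  rintro T K G ⟨B, x, f, _, _, _, _, hf, _, rfl⟩ p
  rw [norm_prod]
  exact Finset.prod_le_one (fun _ _ => norm_nonneg _) fun i _ => (hf i).1 p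

lemma WC_inv (a : Fin k → ℤ) (L : Fin k → Fin r → ℤ) (lg : Fin r → Bool) (i₀ : Fin k)
    (ha : ∀ i, a i ≠ 0) (R : ℕ) (ε : ℝ) (hε : 0 < ε) : Inv (WC a L lg i₀ R ε) := by
  obtain ⟨Q, hQ⟩ := cluster_all (cls a L lg i₀)ᶜ.card (Fin r) (Fin k) a L lg i₀ ha le_rfl 0 R ε hε
  refine ⟨Q, fun η hη => ?_⟩
  obtain ⟨U, M, hUM⟩ := hQ η hη
  refine ⟨U, M, fun T' => ?_⟩
  obtain ⟨T, K, hTK⟩ := hUM T'
  refine ⟨T, K, ?_⟩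
  rintro G ⟨B, x, f, h1, h2, h3, h4, hf, hbig, rfl⟩
  obtain ⟨q, hq1, hqQ, χ, v, hv, hfar⟩ := hTK B x h1 h2 h3 h4 (fun i m => f i m.natAbs) f
    (multAt f hf 0 T) hbig
  exact ⟨q, hq1, hqQ, χ, v, hv, hfar⟩

/-- the situation for twists -/
def WT (a : Fin k → ℤ) (L : Fin k → Fin r → ℤ) (R : ℕ) (ε : ℝ) (_T K : ℕ) (G : ℕ → ℂ) : Prop :=
  ∃ (B : Fin r → ℕ) (x : ℕ) (f : Fin k → ℕ → ℂ) (γ : ℝ), (∀ j, K ≤ B j) ∧ K ≤ x ∧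
    (∀ j, B j ≤ R * x) ∧ (∀ i, IsMult (f i)) ∧
    ε ≤ ER B (fun y => ‖ccg a L (fun i m => f i m.natAbs) γ x y‖ ^ 2) ∧
    G = fun p => ∏ i, f i p

lemma WT_mono (a : Fin k → ℤ) (L : Fin k → Fin r → ℤ) (R : ℕ) (ε : ℝ) : Mono (WT a L R ε) := by
  rintro T K T' K' G _ hK ⟨B, x, f, γ, h1, h2, h3⟩
  exact ⟨B, x, f, γ, fun j => hK.trans (h1 j), hK.trans h2, h3⟩

lemma WT_norm (a : Fin k → ℤ) (L : Fin k → Fin r → ℤ) (R : ℕ) (ε : ℝ) :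
    ∀ T K G, WT a L R ε T K G → ∀ p, ‖G p‖ ≤ 1 := by
  rintro T K G ⟨B, x, f, γ, _, _, _, hf, _, rfl⟩ p
  rw [norm_prod]
  exact Finset.prod_le_one (fun _ _ => norm_nonneg _) fun i _ => (hf i).1 p

lemma WT_inv (a : Fin k → ℤ) (L : Fin k → Fin r → ℤ) (ha : ∀ i, a i ≠ 0) (R : ℕ) (ε : ℝ)
    (hε : 0 < ε) : Inv (WT a L R ε) := by
  obtain ⟨Q, hQ⟩ := tw_all (Fin r) (Fin k) a L ha 0 R ε hε
  refine ⟨Q, fun η hη => ?_⟩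
  obtain ⟨U, M, hUM⟩ := hQ η hη
  refine ⟨U, M, fun T' => ?_⟩
  obtain ⟨T, K, hTK⟩ := hUM T'
  refine ⟨T, K, ?_⟩
  rintro G ⟨B, x, f, γ, h1, h2, h3, hf, hbig, rfl⟩
  obtain ⟨q, hq1, hqQ, χ, v, hv, hfar⟩ := hTK B x h1 h2 h3 (fun i m => f i m.natAbs) f
    (multAt f hf 0 T) γ hbig
  exact ⟨q, hq1, hqQ, χ, v, hv, hfar⟩

/-- correlation sums -/
noncomputable def cs2 (a : Fin k → ℤ) (L : Fin k → Fin r → ℤ) (f : Fin k → ℕ → ℂ) (x : ℕ)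
    (y : Fin r → ℤ) : ℂ :=
  ∑ n ∈ Icc (1 : ℤ) x, ∏ i, f i (a i * n + ∑ j, L i j * y j).natAbs

/-- twisted correlation sums -/
noncomputable def ct2 (a : Fin k → ℤ) (L : Fin k → Fin r → ℤ) (f : Fin k → ℕ → ℂ) (γ : ℝ) (x : ℕ)
    (y : Fin r → ℤ) : ℂ :=
  ∑ n ∈ Icc (1 : ℤ) x, Complex.exp (Complex.I * ((2 * Real.pi * (γ * n) : ℝ) : ℂ)) *
    ∏ i, f i (a i * n + ∑ j, L i j * y j).natAbs

lemma cs2_eq (a : Fin k → ℤ) (L : Fin k → Fin r → ℤ) (f : Fin k → ℕ → ℂ) (x : ℕ) (hx : 0 < x)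
    (y : Fin r → ℤ) : ‖cs2 a L f x y‖
      = x * ‖Pool.Agent.N675.M.cc a L (fun i m => f i m.natAbs) x y‖ := by
  have hx0 : (0 : ℝ) < x := by exact_mod_cast hx
  unfold Pool.Agent.N675.M.cc av
  rw [norm_div, Complex.norm_natCast, mul_div_cancel₀ _ hx0.ne']
  rfl

lemma ct2_eq (a : Fin k → ℤ) (L : Fin k → Fin r → ℤ) (f : Fin k → ℕ → ℂ) (γ : ℝ) (x : ℕ)
    (hx : 0 < x) (y : Fin r → ℤ) : ‖ct2 a L f γ x y‖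
      = x * ‖ccg a L (fun i m => f i m.natAbs) γ x y‖ := by
  have hx0 : (0 : ℝ) < x := by exact_mod_cast hx
  unfold ccg av
  rw [norm_div, Complex.norm_natCast, mul_div_cancel₀ _ hx0.ne']
  rfl

/-- uniform inverse theorem, clusters -/
theorem clusters_uniform (a : Fin k → ℤ) (L : Fin k → Fin r → ℤ) (ha : ∀ i, a i ≠ 0)
    (lg : Fin r → Bool) (i₀ : Fin k) (S : Set ℂ) (hS : S.Finite) (R : ℕ) (ε : ℝ) (hε : 0 < ε) :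
    ∃ Q : ℕ, ∀ η : ℝ, 0 < η → ∃ U M : ℝ, ∀ T : ℕ, ∃ K : ℕ, ∀ (B : Fin r → ℕ) (x : ℕ),
      (∀ j, K ≤ B j) → K ≤ x → (∀ j, B j ≤ R * x) → (∀ j, lg j = true → x ≤ R * B j) →
      ∀ f : Fin k → ℕ → ℂ, (∀ i, IsMult (f i)) →
      ε * (x * ∏ j, (B j : ℝ)) < ∑ y ∈ Box B, ‖cs2 a L f x y‖ →
      ∃ (q : ℕ) (χ : DirichletCharacter ℂ q) (v : ℝ), 1 ≤ q ∧ q ≤ Q ∧ |v| ≤ U ∧
        mass (fun p => ∏ i ∈ cls a L lg i₀, f i p) χ v η T ≤ M ∧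
        ((∀ p : ℕ, p.Prime → ∏ i ∈ cls a L lg i₀, f i p ∈ S) →
          v = 0 ∧ dist2 (fun p => ∏ i ∈ cls a L lg i₀, f i p) χ T ≤ M) := by
  obtain ⟨Q, hQ⟩ := inv_all _ (WC_mono a L lg i₀ R (ε ^ 2)) (WC_norm a L lg i₀ R (ε ^ 2))
    (WC_inv a L lg i₀ ha R (ε ^ 2) (by positivity)) S hS
  refine ⟨Q, fun η hη => ?_⟩
  obtain ⟨U, M, hUM⟩ := hQ η hη
  refine ⟨U, M, fun T' => ?_⟩
  obtain ⟨T, K, hTK⟩ := hUM T'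
  refine ⟨K + 1, fun B x hB hx hBx hlg f hf hbig => ?_⟩
  have h1 := sq_of_sum B x (fun j => by have := hB j; omega) (by omega) _ _
    (cs2_eq a L f x (by omega)) ε hε hbig
  exact hTK _ ⟨B, x, f, fun j => by have := hB j; omega, by omega, hBx, hlg, hf, h1, rfl⟩

/-- fixed functions, clusters -/
theorem clusters_fixed (a : Fin k → ℤ) (L : Fin k → Fin r → ℤ) (ha : ∀ i, a i ≠ 0)
    (lg : Fin r → Bool) (i₀ : Fin k) (f : Fin k → ℕ → ℂ) (hf : ∀ i, IsMult (f i))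
    (h : (∀ (q : ℕ) (χ : DirichletCharacter ℂ q) (v : ℝ), 1 ≤ q → ∃ η : ℝ, 0 < η ∧
        ∀ M : ℝ, ∃ T : ℕ, M < mass (fun p => ∏ i ∈ cls a L lg i₀, f i p) χ v η T) ∨
      ((Set.range fun p : Nat.Primes => ∏ i ∈ cls a L lg i₀, f i p).Finite ∧
        ∀ (q : ℕ) (χ : DirichletCharacter ℂ q), 1 ≤ q →
          ∀ M : ℝ, ∃ T : ℕ, M < dist2 (fun p => ∏ i ∈ cls a L lg i₀, f i p) χ T))
    (R : ℕ) (ε : ℝ) (hε : 0 < ε) :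
    ∃ K : ℕ, ∀ (B : Fin r → ℕ) (x : ℕ),
      (∀ j, K ≤ B j) → K ≤ x → (∀ j, B j ≤ R * x) → (∀ j, lg j = true → x ≤ R * B j) →
      ∑ y ∈ Box B, ‖cs2 a L f x y‖ ≤ ε * (x * ∏ j, (B j : ℝ)) := by
  obtain ⟨T, K, hTK⟩ := inv_qual _ (WC_mono a L lg i₀ R (ε ^ 2)) (WC_norm a L lg i₀ R (ε ^ 2))
    (WC_inv a L lg i₀ ha R (ε ^ 2) (by positivity)) (fun p => ∏ i ∈ cls a L lg i₀, f i p) h
  refine ⟨K + 1, fun B x hB hx hBx hlg => ?_⟩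
  by_contra hbig
  push Not at hbig
  have h1 := sq_of_sum B x (fun j => by have := hB j; omega) (by omega) _ _
    (cs2_eq a L f x (by omega)) ε hε hbig
  exact hTK ⟨B, x, f, fun j => by have := hB j; omega, by omega, hBx, hlg, hf, h1, rfl⟩

/-- uniform inverse theorem, twists -/
theorem twists_uniform (a : Fin k → ℤ) (L : Fin k → Fin r → ℤ) (ha : ∀ i, a i ≠ 0)
    (S : Set ℂ) (hS : S.Finite) (R : ℕ) (ε : ℝ) (hε : 0 < ε) :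
    ∃ Q : ℕ, ∀ η : ℝ, 0 < η → ∃ U M : ℝ, ∀ T : ℕ, ∃ K : ℕ, ∀ (B : Fin r → ℕ) (x : ℕ),
      (∀ j, K ≤ B j) → K ≤ x → (∀ j, B j ≤ R * x) →
      ∀ f : Fin k → ℕ → ℂ, (∀ i, IsMult (f i)) → ∀ γ : ℝ,
      ε * (x * ∏ j, (B j : ℝ)) < ∑ y ∈ Box B, ‖ct2 a L f γ x y‖ →
      (∃ q : ℕ, 1 ≤ q ∧ q ≤ Q ∧ |(q : ℝ) * γ - round ((q : ℝ) * γ)| ≤ (Q : ℝ) / x) ∧
      ∃ (q : ℕ) (χ : DirichletCharacter ℂ q) (v : ℝ), 1 ≤ q ∧ q ≤ Q ∧ |v| ≤ U ∧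
        mass (fun p => ∏ i, f i p) χ v η T ≤ M ∧
        ((∀ p : ℕ, p.Prime → ∏ i, f i p ∈ S) →
          v = 0 ∧ dist2 (fun p => ∏ i, f i p) χ T ≤ M) := by
  obtain ⟨Q, hQ⟩ := inv_all _ (WT_mono a L R (ε ^ 2)) (WT_norm a L R (ε ^ 2))
    (WT_inv a L ha R (ε ^ 2) (by positivity)) S hS
  obtain ⟨T1, Q1, K1, hK1⟩ := Pool.Agent.N279.M.tw1 (Fin r) (Fin k) a L ha 0 (ε ^ 2)
    (by positivity)
  refine ⟨Q + Q1, fun η hη => ?_⟩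
  obtain ⟨U, M, hUM⟩ := hQ η hη
  refine ⟨U, M, fun T' => ?_⟩
  obtain ⟨T, K, hTK⟩ := hUM T'
  refine ⟨K + K1 + 1, fun B x hB hx hBx f hf γ hbig => ?_⟩
  have h1 := sq_of_sum B x (fun j => by have := hB j; omega) (by omega) _ _
    (ct2_eq a L f γ x (by omega)) ε hε hbig
  constructor
  · obtain ⟨q, hq1, hqQ, hq⟩ := hK1 B x (fun j => by have := hB j; omega) (by omega)
      (fun i m => f i m.natAbs) f (multAt f hf 0 T1) γ h1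
    refine ⟨q, hq1, by omega, hq.trans ?_⟩
    apply div_le_div_of_nonneg_right _ (Nat.cast_nonneg _)
    push_cast
    have : (0 : ℝ) ≤ Q := Nat.cast_nonneg _
    linarith
  · obtain ⟨q, χ, v, hq1, hqQ, h2⟩ := hTK _ ⟨B, x, f, γ, fun j => by have := hB j; omega,
      by omega, hBx, hf, h1, rfl⟩
    exact ⟨q, χ, v, hq1, by omega, h2⟩

/-- fixed functions, twists -/
theorem twists_fixed (a : Fin k → ℤ) (L : Fin k → Fin r → ℤ) (ha : ∀ i, a i ≠ 0)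
    (f : Fin k → ℕ → ℂ) (hf : ∀ i, IsMult (f i))
    (h : (∀ (q : ℕ) (χ : DirichletCharacter ℂ q) (v : ℝ), 1 ≤ q → ∃ η : ℝ, 0 < η ∧
        ∀ M : ℝ, ∃ T : ℕ, M < mass (fun p => ∏ i, f i p) χ v η T) ∨
      ((Set.range fun p : Nat.Primes => ∏ i, f i p).Finite ∧
        ∀ (q : ℕ) (χ : DirichletCharacter ℂ q), 1 ≤ q →
          ∀ M : ℝ, ∃ T : ℕ, M < dist2 (fun p => ∏ i, f i p) χ T))
    (R : ℕ) (ε : ℝ) (hε : 0 < ε) :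
    ∃ K : ℕ, ∀ (B : Fin r → ℕ) (x : ℕ), (∀ j, K ≤ B j) → K ≤ x → (∀ j, B j ≤ R * x) →
      ∀ γ : ℝ, ∑ y ∈ Box B, ‖ct2 a L f γ x y‖ ≤ ε * (x * ∏ j, (B j : ℝ)) := by
  obtain ⟨T, K, hTK⟩ := inv_qual _ (WT_mono a L R (ε ^ 2)) (WT_norm a L R (ε ^ 2))
    (WT_inv a L ha R (ε ^ 2) (by positivity)) (fun p => ∏ i, f i p) h
  refine ⟨K + 1, fun B x hB hx hBx γ => ?_⟩
  by_contra hbig
  push Not at hbig
  have h1 := sq_of_sum B x (fun j => by have := hB j; omega) (by omega) _ _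
    (ct2_eq a L f γ x (by omega)) ε hε hbig
  exact hTK ⟨B, x, f, γ, fun j => by have := hB j; omega, by omega, hBx, hf, h1, rfl⟩

end Pool.Agent.N788.Sys
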