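import Mathlib
import Pool.Agent.N788.Sys.GenC
import Pool.Agent.N675.M.CluT
import Pool.Agent.N675.M.Aper
import Pool.Agent.N424.M.MUL

/-! One real non-pretentious factor. -/

set_option autoImplicit false
set_option maxHeartbeats 4000000

namespace Pool.Agent.N788.Sys

open Finset Topology Pool.Agent.N675 Pool.Agent.N675.M Pool.Agent.N781.A Pool.Agent.N781.FV
open Pool.Agent.Y872.L (CM NonPret Pr)

/-- values `1`, `-1` at the primes, infinite distance to the real characters -/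
def RealNP (f : ℕ → ℂ) : Prop :=
  (∀ p : ℕ, p.Prime → f p = 1 ∨ f p = -1) ∧
  ∀ (q : ℕ) (χ : DirichletCharacter ℂ q), 1 ≤ q → χ ^ 2 = 1 →
    ¬ Summable fun p : Nat.Primes =>
      (1 - (f p * (starRingEnd ℂ) (χ ((p : ℕ) : ZMod q))).re) / ((p : ℕ) : ℝ)

/-- the signs at the primes -/
noncomputable def sg (f : ℕ → ℂ) (n : ℕ) : ℝ := by
  classical exact if f n = 1 then 1 else -1

lemma sg_pm (f : ℕ → ℂ) (n : ℕ) : sg f n = 1 ∨ sg f n = -1 := by
  unfold sg
  split_ifs <;> simp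

lemma sg_prime (f : ℕ → ℂ) (hf : ∀ p : ℕ, p.Prime → f p = 1 ∨ f p = -1) {p : ℕ} (hp : p.Prime) :
    ((sg f p : ℝ) : ℂ) = f p := by
  unfold sg
  rcases hf p hp with h | h
  · rw [if_pos h, h]; simp
  · have : f p ≠ 1 := by rw [h]; norm_num
    rw [if_neg this, h]; simp

lemma sg_nonPret (f : ℕ → ℂ) (hf : RealNP f) : NonPret (cmp (sg f)) := by
  classical
  intro Q hQ χ hχ hPr
  refine hf.2 Q χ hQ hχ ?_
  unfold Pr at hPr
  have key : ∀ p : ℕ, p.Prime → ((cmp (sg f) p : ℤ) : ℂ) = f p := by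
    intro p hp
    rw [← sg_prime f hf.1 hp, ← cmp_prime (sg f) (sg_pm f) hp]
    push_cast
    rfl
  have h1 : Summable fun p : Nat.Primes => (2 : ℝ) * (if (p : ℕ).Prime ∧
      ((cmp (sg f) p : ℤ) : ℂ) ≠ χ ((p : ℕ) : ZMod Q) then 1 / ((p : ℕ) : ℝ) else 0) :=
    (hPr.comp_injective Subtype.val_injective).mul_left 2
  refine Summable.of_nonneg_of_le (fun p => ?_) (fun p => ?_) h1
  · refine div_nonneg ?_ (Nat.cast_nonneg _)
    have h2 : ‖f p * (starRingEnd ℂ) (χ ((p : ℕ) : ZMod Q))‖ ≤ 1 := by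
      rw [norm_mul, RCLike.norm_conj]
      refine mul_le_one₀ ?_ (norm_nonneg _) (DirichletCharacter.norm_le_one χ _)
      rcases hf.1 p p.2 with h | h <;> rw [h] <;> simp
    have h3 := (abs_le.mp (Complex.abs_re_le_norm
      (f p * (starRingEnd ℂ) (χ ((p : ℕ) : ZMod Q))))).2
    linarith
  · have hp0 : (0 : ℝ) < ((p : ℕ) : ℝ) := by exact_mod_cast p.2.pos
    split_ifs with h
    · rw [mul_one_div]
      refine div_le_div_of_nonneg_right ?_ hp0.le
      have h2 : ‖f p * (starRingEnd ℂ) (χ ((p : ℕ) : ZMod Q))‖ ≤ 1 := by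
        rw [norm_mul, RCLike.norm_conj]
        refine mul_le_one₀ ?_ (norm_nonneg _) (DirichletCharacter.norm_le_one χ _)
        rcases hf.1 p p.2 with h | h <;> rw [h] <;> simp
      have h3 := (abs_le.mp (Complex.abs_re_le_norm
        (f p * (starRingEnd ℂ) (χ ((p : ℕ) : ZMod Q))))).1
      linarith
    · have h2 : ((cmp (sg f) p : ℤ) : ℂ) = χ ((p : ℕ) : ZMod Q) := by
        by_contra h3
        exact h ⟨p.2, h3⟩
      rw [key p p.2] at h2
      rw [← h2]
      have h3 : (f p * (starRingEnd ℂ) (f p)).re = 1 := by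
        rcases hf.1 p p.2 with h4 | h4 <;> rw [h4] <;> simp
      rw [h3]
      simp

/-- averaged two point correlations with arbitrary weights -/
theorem mrp_real (f : ℕ → ℂ) (hm : IsMult f) (hf : RealNP f) : MRP (fun m => f m.natAbs) := by
  have hcm := cmp_cm (sg f)
  have hE := Pool.Agent.R512.G.expoS hcm (sg_nonPret f hf)
  have hb : ∀ n, ‖((cmp (sg f) n : ℤ) : ℂ)‖ ≤ 1 := by
    intro n
    rcases Nat.eq_zero_or_pos n with h | h
    · subst h; rw [hcm.zero]; simp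
    · rcases hcm.val n h with h1 | h1 <;> rw [h1] <;> simp
  have hMR' := mrp_of_expo (fun n => ((cmp (sg f) n : ℤ) : ℂ)) hb hE
  refine Pool.Agent.N424.M.mul (fun n => ((cmp (sg f) n : ℤ) : ℂ)) f ?_ ?_ hm.1
    (fun m n h => hm.2 m n h) ?_ hMR'
  · intro n h
    rcases hcm.val n h with h1 | h1 <;> rw [h1] <;> simp
  · intro m n _ _
    rw [hcm.mul]
    push_cast
    ring
  · intro p hp
    rw [← sg_prime f hf.1 hp, ← cmp_prime (sg f) (sg_pm f) hp]
    push_cast
    rfl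

/-- one real factor, the form of which is not a combination of the others of its cluster -/
theorem one_factor {r k : ℕ} (a : Fin k → ℤ) (L : Fin k → Fin r → ℤ) (lg : Fin r → Bool)
    (i₀ : Fin k) (ha : ∀ i, a i ≠ 0) (hd : Cdir a L lg i₀ i₀) (h : ℕ → ℂ) (hm : IsMult h)
    (hf : RealNP h) (R : ℕ) (ε : ℝ) (hε : 0 < ε) : ∃ K : ℕ, ∀ (B : Fin r → ℕ) (x : ℕ),
      (∀ j, K ≤ B j) → K ≤ x → (∀ j, B j ≤ R * x) → (∀ j, lg j = true → x ≤ R * B j) →
      ∀ f : Fin k → ℕ → ℂ, (∀ i, IsMult (f i)) → f i₀ = h →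
      ∑ y ∈ Box B, ‖∑ n ∈ Icc (1 : ℤ) x, ∏ i, f i (a i * n + ∑ j, L i j * y j).natAbs‖
        ≤ ε * (x * ∏ j, (B j : ℝ)) := by
  obtain ⟨T, K, hK⟩ := clh struct_all (fun m => h m.natAbs) (mrp_real h hm hf) a L lg i₀ i₀ ha hd
    0 R (ε ^ 2) (by positivity)
  refine ⟨K + 1, fun B x hB hx hBx hlg f hfm hfi => ?_⟩
  have h1 := hK B x (fun j => by have := hB j; omega) (by omega) hBx hlg
    (fun i m => f i m.natAbs) f (multAt f hfm 0 T) (by rw [hfi])
  by_contra hcon
  push Not at hcon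
  have hx0 : 0 < x := by omega
  have h2 := sq_of_sum B x (fun j => by have := hB j; omega) hx0
    (Pool.Agent.N675.M.cc a L (fun i m => f i m.natAbs) x)
    (fun y => ∑ n ∈ Icc (1 : ℤ) x, ∏ i, f i (a i * n + ∑ j, L i j * y j).natAbs) (fun y => by
      unfold Pool.Agent.N675.M.cc av
      rw [norm_div, Complex.norm_natCast, mul_div_cancel₀]
      · rfl
      · exact_mod_cast hx0.ne') ε hε hcon
  linarith

end Pool.Agent.N788.Sys
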